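import Pool.Agent.Helper14.WK.StA

/-!
# Project WK, module KB3: Fourier coefficients of `H`
-/

set_option autoImplicit false

open MeasureTheory Set

namespace Pool.Agent.Helper90.WK

open Pool.Agent.Helper14.WK
open Pool.Agent.Helper14.CV (G0)

variable {N : ℕ} {k : ℤ}

private theorem int_exp (r : ℤ) :
    ∫ x in (0 : ℝ)..1, Complex.exp (2 * Real.pi * Complex.I * r * x) =
      if r = 0 then 1 else 0 := by
  by_cases hr : r = 0
  · simp [hr]
  · rw [if_neg hr]
    have hc : (2 * Real.pi * Complex.I * r : ℂ) ≠ 0 := by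
      have h1 : (r : ℂ) ≠ 0 := by exact_mod_cast hr
      exact mul_ne_zero Complex.two_pi_I_ne_zero h1
    rw [integral_exp_mul_complex hc]
    have e1 : (2 * Real.pi * Complex.I * r * ((1 : ℝ) : ℂ) : ℂ) = r * (2 * Real.pi * Complex.I) := by
      push_cast
      ring
    have e2 : (2 * Real.pi * Complex.I * r * ((0 : ℝ) : ℂ) : ℂ) = 0 := by simp
    rw [e1, e2, Complex.exp_int_mul_two_pi_mul_I, Complex.exp_zero, sub_self, zero_div]

private theorem im_pos' {x y : ℝ} (hy : 0 < y) : 0 < ((x : ℂ) + y * Complex.I).im := by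
  simpa using hy

/-- the Fourier coefficients of `x ↦ f(x + iy)` -/
private theorem coef (h1 : SKA1) (hN : NeZero N) (f : CuspForm (G0 N) k) {y : ℝ} (hy : 0 < y)
    (M : ℤ) :
    HasSum (fun r : ℕ => fcK f r * Complex.exp (-(2 * Real.pi * r * y)) *
      (if (r : ℤ) - M = 0 then 1 else 0))
      (∫ x in (0 : ℝ)..1, fzK f (x + y * Complex.I) *
        Complex.exp (-(2 * Real.pi * Complex.I * M * x))) := by
  have hterm : ∀ (r : ℕ) (x : ℝ), fcK f r * Complex.exp (2 * Real.pi * Complex.I * r *
      (x + y * Complex.I)) * Complex.exp (-(2 * Real.pi * Complex.I * M * x)) =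
      fcK f r * Complex.exp (-(2 * Real.pi * r * y)) *
        Complex.exp (2 * Real.pi * Complex.I * ((r : ℤ) - M : ℤ) * x) := by
    intro r x
    rw [mul_assoc (fcK f r), ← Complex.exp_add, mul_assoc (fcK f r), ← Complex.exp_add]
    congr 2
    have hI : Complex.I * Complex.I = -1 := Complex.I_mul_I
    push_cast
    linear_combination (2 * Real.pi * r * y) * hI
  have hsum : ∀ x : ℝ, HasSum (fun r : ℕ => fcK f r * Complex.exp (-(2 * Real.pi * r * y)) *
      Complex.exp (2 * Real.pi * Complex.I * ((r : ℤ) - M : ℤ) * x))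
      (fzK f (x + y * Complex.I) * Complex.exp (-(2 * Real.pi * Complex.I * M * x))) := by
    intro x
    have h2 := (h1 N hN k f (x + y * Complex.I) (im_pos' hy)).2.2.1.mul_right
      (Complex.exp (-(2 * Real.pi * Complex.I * M * x)))
    refine h2.congr_fun ?_
    intro r
    exact (hterm r x).symm
  have hnorm : ∀ (r : ℕ) (x : ℝ), ‖fcK f r * Complex.exp (-(2 * Real.pi * r * y)) *
      Complex.exp (2 * Real.pi * Complex.I * ((r : ℤ) - M : ℤ) * x)‖ =
      ‖fcK f r * Complex.exp (-(2 * Real.pi * r * y))‖ := by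
    intro r x
    rw [norm_mul, Complex.norm_exp]
    have e : (2 * Real.pi * Complex.I * ((r : ℤ) - M : ℤ) * x : ℂ).re = 0 := by
      have e' : (2 * Real.pi * Complex.I * ((r : ℤ) - M : ℤ) * x : ℂ) =
          ((2 * Real.pi * ((r : ℤ) - M : ℤ) * x : ℝ) : ℂ) * Complex.I := by
        push_cast
        ring
      rw [e', Complex.re_ofReal_mul, Complex.I_re, mul_zero]
    rw [e, Real.exp_zero, mul_one]
  have hbs : Summable fun r : ℕ => ‖fcK f r * Complex.exp (-(2 * Real.pi * r * y))‖ := by
    have h3 := (hsum 0).summable.norm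
    refine h3.congr ?_
    intro r
    exact hnorm r 0
  have h4 := intervalIntegral.hasSum_integral_of_dominated_convergence (μ := volume) (a := 0)
    (b := 1) (F := fun (r : ℕ) (x : ℝ) => fcK f r * Complex.exp (-(2 * Real.pi * r * y)) *
      Complex.exp (2 * Real.pi * Complex.I * ((r : ℤ) - M : ℤ) * x))
    (f := fun x : ℝ => fzK f (x + y * Complex.I) *
      Complex.exp (-(2 * Real.pi * Complex.I * M * x)))
    (fun r _ => ‖fcK f r * Complex.exp (-(2 * Real.pi * r * y))‖)
    (fun r => (by fun_prop : Continuous fun x : ℝ => fcK f r *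
      Complex.exp (-(2 * Real.pi * r * y)) *
      Complex.exp (2 * Real.pi * Complex.I * ((r : ℤ) - M : ℤ) * x)).aestronglyMeasurable)
    (fun r => Filter.Eventually.of_forall fun x _ => (hnorm r x).le)
    (Filter.Eventually.of_forall fun x _ => hbs) intervalIntegrable_const
    (Filter.Eventually.of_forall fun x _ => hsum x)
  refine h4.congr_fun ?_
  intro r
  rw [intervalIntegral.integral_const_mul, int_exp]

private theorem cont_fz (f : CuspForm (G0 N) k) : ContinuousOn (fzK f) {z | 0 < z.im} := by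
  have h := UpperHalfPlane.mdifferentiable_iff.1 f.holo'
  exact h.continuousOn

private theorem gamma_int {A m : ℕ} (hm : 1 ≤ m) :
    ∫ y in Ioi (0 : ℝ), Complex.exp (-(2 * Real.pi * m * y)) * (y : ℂ) ^ (2 * A) =
      ((((2 * A).factorial : ℝ) / (2 * Real.pi * m) ^ (2 * A + 1) : ℝ) : ℂ) := by
  have hr : 0 < 2 * Real.pi * (m : ℝ) := by
    have : (0 : ℝ) < m := by exact_mod_cast hm
    positivity
  have h := Real.integral_rpow_mul_exp_neg_mul_Ioi (a := (2 * A : ℕ) + 1) (r := 2 * Real.pi * m)
    (by positivity) hr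
  have e1 : ∫ y in Ioi (0 : ℝ), Complex.exp (-(2 * Real.pi * m * y)) * (y : ℂ) ^ (2 * A) =
      ∫ y in Ioi (0 : ℝ), (((y ^ ((((2 * A : ℕ) : ℝ) + 1) - 1) *
        Real.exp (-(2 * Real.pi * m * y)) : ℝ)) : ℂ) := by
    refine setIntegral_congr_fun measurableSet_Ioi fun y _ => ?_
    have e2 : (((2 * A : ℕ) : ℝ) + 1) - 1 = ((2 * A : ℕ) : ℝ) := by ring
    rw [e2, Real.rpow_natCast]
    push_cast
    ring
  rw [e1, integral_complex_ofReal, h]
  congr 1
  rw [Real.Gamma_nat_eq_factorial, one_div, Real.inv_rpow hr.le]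
  have e3 : (((2 * A : ℕ) : ℝ) + 1) = ((2 * A + 1 : ℕ) : ℝ) := by push_cast; ring
  rw [e3, Real.rpow_natCast]
  field_simp

theorem hKB3 (h1 : SKA1) (hB : SKB1) : SKB3 := by
  intro N hN A f hA
  obtain ⟨⟨B, hBi, hBb⟩, -⟩ := hB N hN A f hA
  -- exchange of the integrations
  have key : ∀ M : ℤ, ∫ x in (0 : ℝ)..1, HK A f x *
      Complex.exp (-(2 * Real.pi * Complex.I * M * x)) =
      ∫ y in Ioi (0 : ℝ), (∫ x in (0 : ℝ)..1, fzK f (x + y * Complex.I) *
        Complex.exp (-(2 * Real.pi * Complex.I * M * x))) * (y : ℂ) ^ (2 * A) := by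
    intro M
    have hexpn : ∀ x : ℝ, ‖Complex.exp (-(2 * Real.pi * Complex.I * M * x))‖ = 1 := by
      intro x
      have e' : (-(2 * Real.pi * Complex.I * M * x) : ℂ) =
          ((-(2 * Real.pi * M * x) : ℝ) : ℂ) * Complex.I := by
        push_cast
        ring
      rw [e', Complex.norm_exp_ofReal_mul_I]
    have hint : Integrable (Function.uncurry fun (x y : ℝ) => fzK f (x + y * Complex.I) *
        (y : ℂ) ^ (2 * A) * Complex.exp (-(2 * Real.pi * Complex.I * M * x)))
        ((volume.restrict (Set.uIoc (0 : ℝ) 1)).prod (volume.restrict (Ioi (0 : ℝ)))) := by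
      have : IsFiniteMeasure (volume.restrict (Set.uIoc (0 : ℝ) 1)) := by
        rw [Set.uIoc_of_le zero_le_one]
        infer_instance
      have hB2 : Integrable (fun q : ℝ × ℝ => B q.2)
          ((volume.restrict (Set.uIoc (0 : ℝ) 1)).prod (volume.restrict (Ioi (0 : ℝ)))) :=
        Integrable.comp_snd hBi _
      refine hB2.mono' ?_ ?_
      · rw [Measure.prod_restrict]
        refine ContinuousOn.aestronglyMeasurable ?_
          ((measurableSet_uIoc).prod measurableSet_Ioi)
        have hc1 : ContinuousOn (fun q : ℝ × ℝ => fzK f ((q.1 : ℂ) + q.2 * Complex.I))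
            (Set.uIoc (0 : ℝ) 1 ×ˢ Ioi (0 : ℝ)) := by
          refine (cont_fz f).comp (by fun_prop) ?_
          rintro ⟨x, y⟩ ⟨_, hy⟩
          exact im_pos' hy
        have hc2 : Continuous fun q : ℝ × ℝ => (q.2 : ℂ) ^ (2 * A) := by fun_prop
        have hc3 : Continuous fun q : ℝ × ℝ =>
            Complex.exp (-(2 * Real.pi * Complex.I * M * q.1)) := by fun_prop
        exact (hc1.mul hc2.continuousOn).mul hc3.continuousOn
      · rw [Measure.prod_restrict]
        refine (ae_restrict_iff' ((measurableSet_uIoc).prod measurableSet_Ioi)).2 ?_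
        refine Filter.Eventually.of_forall ?_
        rintro ⟨x, y⟩ ⟨_, hy⟩
        simp only [Function.uncurry]
        rw [norm_mul, hexpn, mul_one]
        exact hBb x y hy
    have hsw := intervalIntegral_integral_swap hint
    have e1 : ∫ x in (0 : ℝ)..1, HK A f x * Complex.exp (-(2 * Real.pi * Complex.I * M * x)) =
        ∫ x in (0 : ℝ)..1, ∫ y in Ioi (0 : ℝ), fzK f (x + y * Complex.I) *
        (y : ℂ) ^ (2 * A) * Complex.exp (-(2 * Real.pi * Complex.I * M * x)) := by
      refine intervalIntegral.integral_congr fun x _ => ?_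
      simp only [HK]
      rw [integral_mul_const]
    rw [e1, hsw]
    refine setIntegral_congr_fun measurableSet_Ioi fun y _ => ?_
    rw [← intervalIntegral.integral_mul_const]
    refine intervalIntegral.integral_congr fun x _ => ?_
    ring
  refine ⟨?_, ?_, ?_⟩
  · intro m hm
    have h2 := key m
    have e0 : ∀ x : ℝ, (-(2 * Real.pi * Complex.I * ((m : ℤ) : ℂ) * x) : ℂ) =
        -(2 * Real.pi * Complex.I * m * x) := by
      intro x
      push_cast
      ring
    simp only [e0] at h2
    rw [h2, ← gamma_int (A := A) hm, ← integral_const_mul]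
    refine setIntegral_congr_fun measurableSet_Ioi fun y hy => ?_
    have h3 := coef h1 hN f (y := y) hy m
    simp only [e0] at h3
    have h4 : HasSum (fun r : ℕ => fcK f r * Complex.exp (-(2 * Real.pi * r * y)) *
        (if (r : ℤ) - (m : ℤ) = 0 then 1 else 0))
        (fcK f m * Complex.exp (-(2 * Real.pi * m * y))) := by
      have h5 := hasSum_single (f := fun r : ℕ => fcK f r * Complex.exp (-(2 * Real.pi * r * y)) *
        (if (r : ℤ) - (m : ℤ) = 0 then (1 : ℂ) else 0)) m ?_
      · simpa using h5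
      · intro r hr
        rw [if_neg, mul_zero]
        intro h6
        apply hr
        omega
    rw [h3.unique h4, mul_assoc]
  · intro m hm
    have h2 := key (-(m : ℤ))
    have e0 : ∀ x : ℝ, (-(2 * Real.pi * Complex.I * ((-(m : ℤ) : ℤ) : ℂ) * x) : ℂ) =
        2 * Real.pi * Complex.I * m * x := by
      intro x
      push_cast
      ring
    simp only [e0] at h2
    rw [h2]
    have h6 : ∀ y ∈ Ioi (0 : ℝ), (∫ x in (0 : ℝ)..1, fzK f (x + y * Complex.I) *
        Complex.exp (2 * Real.pi * Complex.I * m * x)) * (y : ℂ) ^ (2 * A) = 0 := by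
      intro y hy
      have h3 := coef h1 hN f (y := y) hy (-(m : ℤ))
      simp only [e0] at h3
      have h4 : HasSum (fun r : ℕ => fcK f r * Complex.exp (-(2 * Real.pi * r * y)) *
          (if (r : ℤ) - (-(m : ℤ)) = 0 then (1 : ℂ) else 0)) 0 := by
        refine hasSum_zero.congr_fun ?_
        intro r
        rw [if_neg, mul_zero]
        omega
      rw [h3.unique h4, zero_mul]
    rw [setIntegral_congr_fun measurableSet_Ioi h6]
    simp
  · intro x
    unfold HK
    refine setIntegral_congr_fun measurableSet_Ioi fun y hy => ?_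
    have h3 := (h1 N hN _ f (x + y * Complex.I) (im_pos' hy)).2.2.1
    have h4 := (h1 N hN _ f (((x + 1 : ℝ) : ℂ) + y * Complex.I) (im_pos' hy)).2.2.1
    have h5 : fzK f (((x + 1 : ℝ) : ℂ) + y * Complex.I) = fzK f (x + y * Complex.I) := by
      refine h4.unique (h3.congr_fun ?_)
      intro r
      have e : (2 * Real.pi * Complex.I * r * (((x + 1 : ℝ) : ℂ) + y * Complex.I) : ℂ) =
          2 * Real.pi * Complex.I * r * (x + y * Complex.I) + r * (2 * Real.pi * Complex.I) := by
        push_cast
        ring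
      rw [e, Complex.exp_add, Complex.exp_nat_mul_two_pi_mul_I, mul_one]
    rw [h5]

end Pool.Agent.Helper90.WK
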